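import Pool.Agent.H10.AsC

namespace Pool.Agent.Results.MP_65fb70_co.Bounds

open Pool.Agent.H10.As

theorem result (σ : ℕ) (hσ : 1 ≤ σ) :
    (∀ (α : Type*) (X1 X2 : Set α) (C1 C2 : Set (Set α)), Aligned X1 C1 → Aligned X2 C2 →
      ∀ a b h : ℕ∞, a = helly X1 C1 σ → b = helly X2 C2 σ →
        h = helly (X1 ∪ X2) (asum X1 C1 X2 C2) σ →
        h ≤ Up σ a b ∧
        (σ ≤ 3 ∨ a < σ ∨ b < σ ∨ (∃ k : ℕ, k * k / 4 + 1 ≤ σ ∧ min a b = (σ + k : ℕ)) ∨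
          ((σ * σ + σ : ℕ) : ℕ∞) ≤ min a b → Lo σ a b ≤ h) ∧
        (∀ k : ℕ, k * k / 4 + 1 ≤ σ → ((σ + k : ℕ) : ℕ∞) ≤ min a b → ((σ + k : ℕ) : ℕ∞) ≤ h) ∧
        (∀ k : ℕ, 1 ≤ k → k ≤ σ → ((k * σ + k : ℕ) : ℕ∞) ≤ min a b →
          ((σ + k : ℕ) : ℕ∞) ≤ h)) ∧
    (∀ a b : ℕ∞, Ex σ a b (fun h => h = Up σ a b) ∧ Ex σ a b (fun h => h ≤ Lo σ a b)) ∧
    Ex σ (2 * σ : ℕ) (2 * σ : ℕ) (fun h => h ≤ (σ + (σ + 3) / 2 : ℕ)) := by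
  refine ⟨?_, fun a b => ⟨up_ex hσ a b, lo_ex hσ a b⟩, ex4 σ hσ⟩
  rintro α X1 X2 C1 C2 h1 h2 _ _ _ rfl rfl rfl
  exact ⟨up_le h1 h2 hσ, lo_le h1 h2 hσ, fun k hk h => lower h1 h2 hσ le_rfl (Or.inl hk)
    (h.trans (min_le_left _ _)) (h.trans (min_le_right _ _)), fun k k1 k2 h =>
    lower h1 h2 hσ (by nlinarith) (Or.inr ⟨k2, le_rfl⟩) (h.trans (min_le_left _ _))
      (h.trans (min_le_right _ _))⟩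

end Pool.Agent.Results.MP_65fb70_co.Bounds
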